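import Pool.Agent.W206.YP.Stm

/-!
# YP-GRO: growth of `j` at the cusp
-/

set_option autoImplicit false

namespace Pool.Agent.W762.YP.GRO

open UpperHalfPlane H294ZP Filter Topology

theorem main : Pool.Agent.W206.YP.S_GRO := by
  have hlim := H294ZP.TBproof.lau_limit 1 1 1 jj Nat.one_pos H294ZP.ta2
  have hn : Tendsto (fun τ : ℍ => ‖qq 1 τ ^ 1 * jj τ‖) atImInfty (𝓝 1) := by
    have := hlim.norm
    simpa using this
  have h1 : ∀ᶠ τ in atImInfty, ‖qq 1 τ ^ 1 * jj τ‖ < 2 :=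
    hn.eventually_lt_const (by norm_num)
  have h2 : ∀ᶠ τ in atImInfty, (1 / 2 : ℝ) < ‖qq 1 τ ^ 1 * jj τ‖ :=
    hn.eventually_const_lt (by norm_num)
  obtain ⟨Y, hY⟩ := (atImInfty_mem _).1 (h1.and h2)
  refine ⟨Y, 2, by norm_num, fun τ hτ => ?_⟩
  obtain ⟨ha, hb⟩ := hY τ hτ
  rw [norm_mul, norm_pow, pow_one, H294ZP.TBproof.norm_qq] at ha hb
  have he : Real.exp (-(2 * Real.pi / ((1 : ℕ) : ℝ) * τ.im)) *
      Real.exp (2 * Real.pi * τ.im) = 1 := by
    rw [← Real.exp_add]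
    simp
  set e := Real.exp (-(2 * Real.pi / ((1 : ℕ) : ℝ) * τ.im)) with hedef
  set E := Real.exp (2 * Real.pi * τ.im) with hEdef
  have hE : 0 < E := Real.exp_pos _
  constructor
  · have h3 : E * (1 / 2) ≤ E * (e * ‖jj τ‖) := mul_le_mul_of_nonneg_left hb.le hE.le
    have h4 : E * (e * ‖jj τ‖) = ‖jj τ‖ := by
      rw [← mul_assoc, mul_comm E e, he, one_mul]
    rw [h4] at h3
    linarith
  · have h3 : E * (e * ‖jj τ‖) ≤ E * 2 := mul_le_mul_of_nonneg_left ha.le hE.le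
    have h4 : E * (e * ‖jj τ‖) = ‖jj τ‖ := by
      rw [← mul_assoc, mul_comm E e, he, one_mul]
    rw [h4] at h3
    linarith

end Pool.Agent.W762.YP.GRO
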